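import Mathlib
import Pool.Agent.Lib.helper3.Coins

open MeasureTheory ProbabilityTheory Finset Filter Asymptotics Pool.Agent.Lib.helper3.Coins
open scoped ENNReal

namespace Pool.Agent.H.MP_988dcd_pr

instance : IsProbabilityMeasure (uniformOn (Set.univ : Set Bool)) :=
  isProbabilityMeasure_uniformOn (Set.toFinite _) Set.univ_nonempty

noncomputable abbrev μ : Measure (ℕ → Bool) := Measure.infinitePi fun _ => uniformOn Set.univ

def Dep (m : ℕ) (S : Set (ℕ → Bool)) : Prop := ∀ ω ω' : ℕ → Bool, (∀ i < m, ω i = ω' i) → ω ∈ S → ω' ∈ S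

lemma Dep.ms {m : ℕ} {S : Set (ℕ → Bool)} (h : Dep m S) : MeasurableSet[cylinderEvents (Set.Iio m)] S := by
  have : S = (Set.Iio m).domRestrict ⁻¹' ((Set.Iio m).domRestrict '' S) :=
    (Set.subset_preimage_image _ _).antisymm fun ω ⟨ω', h1, h2⟩ => h ω' ω (fun i hi => congrFun h2 ⟨i, hi⟩) h1
  rw [this]
  exact measurable_restrict_cylinderEvents _ (Set.toFinite _).measurableSet

lemma pat {m : ℕ} {S : Set (ℕ → Bool)} (h : Dep m S) (j : ℕ) (v : ℕ → Bool) :
    μ (S ∩ {ω | ∀ i ∈ Ico m (m + j), ω i = v i}) = μ S * 2⁻¹ ^ j := by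
  rw [indep_cyl _ (T := Set.Ici m) (Set.Iio_disjoint_Ici le_rfl) h.ms]
  · congr 1
    refine (Measure.infinitePi_pi _ (s := Ico m (m + j)) (t := fun i => {v i}) fun i _ => .singleton _).trans ?_
    simp only [uniformOn_univ]
    simp
  · simp only [Set.ofPred_forall]
    exact (Ico m (m + j)).measurableSet_biInter fun i hi =>
      measurable_cylinderEvent_apply (X := fun _ => Bool) (Set.mem_Ici.2 (mem_Ico.1 hi).1) (.singleton (v i))

variable (n : ℕ) (a b : ℕ → Bool)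

def Oc (ω : ℕ → Bool) (t : ℕ) : Prop := ∀ i < n, ω (t + i) = a i

def ov (j : ℕ) : Prop := ∀ i, j + i < n → a (j + i) = b i

open Classical in
noncomputable def c : ℝ := ∑ j ∈ range n, if ov n a b j then 2⁻¹ ^ j else 0

def F (x : ℕ → Bool) (s : ℕ) : Set (ℕ → Bool) := {ω | (∀ r < s, ¬ Oc n a ω r ∧ ¬ Oc n b ω r) ∧ Oc n x ω s}

def G (t : ℕ) : Set (ℕ → Bool) := {ω | ∀ r, r + n ≤ t → ¬ Oc n a ω r ∧ ¬ Oc n b ω r}

variable {n a b}

lemma Oc.congr {ω ω' : ℕ → Bool} {m r : ℕ} (h : ∀ i < m, ω i = ω' i) (hr : r + n ≤ m) (x : ℕ → Bool) :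
    Oc n x ω r ↔ Oc n x ω' r := forall₂_congr fun i hi => by rw [h _ (by omega)]

lemma dF (x : ℕ → Bool) (s : ℕ) : Dep (s + n) (F n a b x s) := fun ω ω' h h1 =>
  ⟨fun r hr => by rw [← Oc.congr h (by omega), ← Oc.congr h (by omega)]; exact h1.1 r hr, (Oc.congr h le_rfl x).1 h1.2⟩

lemma dG (t : ℕ) : Dep t (G n a b t) := fun ω ω' h h1 r hr => by
  rw [← Oc.congr h hr, ← Oc.congr h hr]; exact h1 r hr

lemma mF (x : ℕ → Bool) (s : ℕ) : MeasurableSet (F n a b x s) := cylinderEvents_le_pi _ (dF x s).ms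

lemma mO (x : ℕ → Bool) (s : ℕ) : MeasurableSet {ω | Oc n x ω s} :=
  cylinderEvents_le_pi _ (Dep.ms (m := s + n) fun _ _ h h1 => (Oc.congr h le_rfl x).1 h1)

open Classical in
lemma F_Oc (x y : ℕ → Bool) (s j : ℕ) (hj : j < n) :
    μ (F n a b x s ∩ {ω | Oc n y ω (s + j)}) = μ (F n a b x s) * ENNReal.ofReal (if ov n x y j then 2⁻¹ ^ j else 0) := by
  split_ifs with h
  · rw [ENNReal.ofReal_pow (by norm_num), ENNReal.ofReal_inv_of_pos (by norm_num), ENNReal.ofReal_ofNat,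
      ← pat (dF x s) j fun i => y (i - (s + j))]
    congr 1
    ext ω
    refine and_congr_right fun h1 => ⟨fun h2 i hi => ?_, fun h2 i hi => ?_⟩
    · rw [mem_Ico] at hi
      rw [← h2 _ (by omega)]
      congr 1
      omega
    · by_cases h3 : j + i < n
      · rw [add_assoc, h1.2 _ h3, h i h3]
      · rw [h2 _ (mem_Ico.2 (by omega))]
        congr 1
        omega
  · rw [Set.eq_empty_of_forall_notMem (s := F n a b x s ∩ _) fun ω ⟨h1, h2⟩ => h fun i hi => by
      rw [← h1.2 _ hi, ← add_assoc, h2 i (by omega)]]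
    simp

lemma first {ω : ℕ → Bool} {t : ℕ} (h : Oc n a ω t ∨ Oc n b ω t) : ∃ s ≤ t, ω ∈ F n a b a s ∨ ω ∈ F n a b b s := by
  classical
  have h1 : ∃ t, Oc n a ω t ∨ Oc n b ω t := ⟨t, h⟩
  have h2 : ∀ r < Nat.find h1, ¬ Oc n a ω r ∧ ¬ Oc n b ω r := fun r hr => not_or.1 (Nat.find_min h1 hr)
  exact ⟨_, Nat.find_min' h1 h, (Nat.find_spec h1).imp (fun h => ⟨h2, h⟩) fun h => ⟨h2, h⟩⟩

lemma split (hab : ¬ ov n a b 0) {E : Set (ℕ → Bool)} (hE : MeasurableSet E)
    (h : ∀ᵐ ω ∂μ, ω ∈ E → ∃ t, Oc n a ω t ∨ Oc n b ω t) :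
    μ E = ∑' s, (μ (F n a b a s ∩ E) + μ (F n a b b s ∩ E)) := by
  have h1 : ∀ s, μ (F n a b a s ∩ E) + μ (F n a b b s ∩ E) = μ ((F n a b a s ∪ F n a b b s) ∩ E) := fun s => by
    rw [Set.union_inter_distrib_right, measure_union _ ((mF b s).inter hE)]
    exact Set.disjoint_left.2 fun ω h1 h2 => hab fun i hi => by
      rw [zero_add] at hi ⊢
      rw [← h1.1.2 i hi, h2.1.2 i hi]
  simp only [h1]
  rw [← measure_iUnion _ fun s => ((mF a s).union (mF b s)).inter hE]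
  · refine le_antisymm (measure_mono_ae ?_) (measure_mono (Set.iUnion_subset fun s => Set.inter_subset_right))
    filter_upwards [h] with ω hω h2
    obtain ⟨t, ht⟩ := hω h2
    obtain ⟨s, -, hs⟩ := first ht
    exact Set.mem_iUnion.2 ⟨s, hs, h2⟩
  · refine pairwise_disjoint_on _ |>.2 fun s t hst => Set.disjoint_left.2 fun ω h2 h3 => ?_
    have h4 : ¬ Oc n a ω s ∧ ¬ Oc n b ω s := h3.1.elim (fun h => h.1 s hst) fun h => h.1 s hst
    exact h2.1.elim (fun h => h4.1 h.2) fun h => h4.2 h.2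

lemma c_nonneg (x y : ℕ → Bool) : 0 ≤ c n x y := sum_nonneg fun _ _ => by split_ifs <;> positivity

lemma eqn (hab : ¬ ov n a b 0) (y : ℕ → Bool) (hy : y = a ∨ y = b) : (∑' t, μ (G n a b t)) * 2⁻¹ ^ n =
    (∑' s, μ (F n a b a s)) * ENNReal.ofReal (c n a y) + (∑' s, μ (F n a b b s)) * ENNReal.ofReal (c n b y) := by
  classical
  have h1 : ∀ t, μ (G n a b t) * 2⁻¹ ^ n = μ (G n a b t ∩ {ω | Oc n y ω t}) := fun t => by
    rw [← pat (dG t) n fun i => y (i - t)]
    congr 2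
    ext ω
    refine ⟨fun h i hi => ?_, fun h i hi => ?_⟩
    · rw [h _ (mem_Ico.2 (by omega)), Nat.add_sub_cancel_left]
    · rw [mem_Ico] at hi
      rw [← h _ (by omega)]
      congr 1
      omega
  have h2 : ∀ x, x = a ∨ x = b → ∀ s, ∑' t, μ (F n a b x s ∩ (G n a b t ∩ {ω | Oc n y ω t})) =
      μ (F n a b x s) * ENNReal.ofReal (c n x y) := by
    intro x hx s
    rw [tsum_eq_sum (s := Ico s (s + n)), sum_Ico_eq_sum_range, Nat.add_sub_cancel_left, c,
      ENNReal.ofReal_sum_of_nonneg fun _ _ => by split_ifs <;> positivity, mul_sum]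
    · refine sum_congr rfl fun j hj => ?_
      rw [mem_range] at hj
      rw [← F_Oc x y s j hj]
      congr 1
      ext ω
      exact and_congr_right fun h => and_iff_right fun r hr => h.1 r (by omega)
    · intro t ht
      rw [Set.eq_empty_of_forall_notMem (s := F n a b x s ∩ _), measure_empty]
      rintro ω ⟨h3, h4, h5⟩
      rw [mem_Ico, not_and_or, not_le, not_lt] at ht
      rcases ht with ht | ht
      · rcases hy with rfl | rfl
        exacts [(h3.1 t ht).1 h5, (h3.1 t ht).2 h5]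
      · rcases hx with rfl | rfl
        exacts [(h4 s ht).1 h3.2, (h4 s ht).2 h3.2]
  rw [← ENNReal.tsum_mul_right, ← ENNReal.tsum_mul_right, ← ENNReal.tsum_mul_right, ← ENNReal.tsum_add]
  simp only [h1, ← h2 a (Or.inl rfl), ← h2 b (Or.inr rfl), ← ENNReal.tsum_add]
  rw [ENNReal.tsum_comm]
  refine tsum_congr fun t => split hab ((cylinderEvents_le_pi _ (dG t).ms).inter (mO y t))
    (Eventually.of_forall fun ω h => ⟨t, ?_⟩)
  rcases hy with rfl | rfl
  exacts [Or.inl h.2, Or.inr h.2]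

lemma conway (hab : ¬ ov n a b 0) : ∃ p : ℝ, 0 ≤ p ∧ p ≤ 1 ∧
    μ.real {ω | ∃ t, Oc n b ω t ∧ ∀ s ≤ t, ¬ Oc n a ω s} = p ∧
    (1 - p) * c n a a + p * c n b a = (1 - p) * c n a b + p * c n b b := by
  have hd : ∀ x, x = a ∨ x = b → ∑' s, μ (F n a b x s) = μ (⋃ s, F n a b x s) := fun x hx => by
    rw [measure_iUnion _ (mF x)]
    refine pairwise_disjoint_on _ |>.2 fun s t hst => Set.disjoint_left.2 fun ω h2 h3 => ?_
    rcases hx with rfl | rfl
    exacts [(h3.1 s hst).1 h2.2, (h3.1 s hst).2 h2.2]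
  have ea := eqn hab a (Or.inl rfl)
  have eb := eqn hab b (Or.inr rfl)
  have h1 : ∀ᵐ ω ∂μ, ω ∈ Set.univ → ∃ t, Oc n a ω t ∨ Oc n b ω t := by
    rw [ae_iff]
    by_contra hc
    have h2 : ∑' _ : ℕ, μ {ω | ¬ (ω ∈ Set.univ → ∃ t, Oc n a ω t ∨ Oc n b ω t)} ≤ ∑' t, μ (G n a b t) :=
      ENNReal.tsum_le_tsum fun t => measure_mono fun ω hω r _ => not_or.1 fun h => hω fun _ => ⟨r, h⟩
    rw [ENNReal.tsum_const_eq_top_of_ne_zero hc, top_le_iff] at h2
    rw [h2, ENNReal.top_mul (by simp), hd a (Or.inl rfl), hd b (Or.inr rfl)] at ea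
    exact absurd ea.symm (by finiteness)
  have h2 := split hab .univ h1
  simp only [Set.inter_univ, measure_univ, ENNReal.tsum_add] at h2
  rw [ea] at eb
  rw [hd a (Or.inl rfl), hd b (Or.inr rfl)] at eb h2
  have h3 := congrArg ENNReal.toReal h2
  have h4 := congrArg ENNReal.toReal eb
  rw [ENNReal.toReal_add (by finiteness) (by finiteness)] at h3 h4
  rw [ENNReal.toReal_add (by finiteness) (by finiteness)] at h4
  simp only [ENNReal.toReal_mul, ENNReal.toReal_ofReal (c_nonneg _ _), ENNReal.toReal_one] at h3 h4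
  refine ⟨μ.real (⋃ s, F n a b b s), measureReal_nonneg, measureReal_le_one, ?_, ?_⟩
  · congr 1
    ext ω
    simp only [Set.mem_ofPred_eq, Set.mem_iUnion]
    constructor
    · rintro ⟨t, h5, h6⟩
      obtain ⟨s, h7, h8⟩ := first (Or.inr h5 : Oc n a ω t ∨ _)
      exact ⟨s, h8.resolve_left fun h => h6 s h7 h.2⟩
    · rintro ⟨t, h5, h6⟩
      refine ⟨t, h6, fun s hs h7 => ?_⟩
      rcases hs.eq_or_lt with rfl | hs
      · exact hab fun i hi => by
          rw [zero_add] at hi ⊢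
          rw [← h7 i hi, h6 i hi]
      · exact (h5 s hs).1 h7
  · rw [measureReal_def, h3, add_sub_cancel_right]
    exact h4

def ext (A : Fin n → Bool) : ℕ → Bool := fun i => if h : i < n then A ⟨i, h⟩ else false

lemma ext_inj {A B : Fin n → Bool} (h : ∀ i < n, ext A i = ext B i) : A = B := funext fun i => by
  simpa [ext] using h i i.2

open Classical in
noncomputable def al (Q : ℕ → (ℕ → Bool) → Prop) (n : ℕ) (x : ℕ → Bool) : ℝ :=
  ∑ j ∈ range n, if Q j x then 2⁻¹ ^ j else 0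

lemma al_nonneg (Q : ℕ → (ℕ → Bool) → Prop) (x : ℕ → Bool) : 0 ≤ al Q n x :=
  sum_nonneg fun _ _ => by split_ifs <;> positivity

lemma cnt (Q : ℕ → (ℕ → Bool) → Prop)
    (hQ : ∀ j x y, Q j x → Q j y → ∀ m, j ≤ m → m + 1 < n → (∀ l < m, x l = y l) → x m = y m) :
    ∑ A : Fin n → Bool, al Q n (ext A) ≤ 2 * n := by
  classical
  unfold al
  rw [sum_comm]
  refine (sum_le_card_nsmul _ _ 2 fun j _ => ?_).trans (by simp [mul_comm])
  rw [← sum_filter, sum_const, nsmul_eq_mul]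
  have h1 : #{A : Fin n → Bool | Q j (ext A)} ≤ #(univ : Finset ((Fin j → Bool) × Bool)) := by
    refine card_le_card_of_injOn (fun A => (fun i => ext A i, ext A (n - 1))) (fun _ _ => by simp)
      fun A hA B hB h => ext_inj fun m => ?_
    simp only [coe_filter, mem_univ, true_and, Set.mem_ofPred_eq, Prod.mk.injEq] at hA hB h
    induction m using Nat.strong_induction_on with
    | _ m ih =>
      intro hm
      by_cases h2 : m < j
      · exact congrFun h.1 ⟨m, h2⟩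
      by_cases h3 : m + 1 < n
      · exact hQ j _ _ hA hB m (by omega) h3 fun l hl => ih l hl (by omega)
      · rw [show m = n - 1 by omega]
        exact h.2
  have h2 : (#{A : Fin n → Bool | Q j (ext A)} : ℝ) ≤ 2 ^ j * 2 := by
    simp only [card_univ, Fintype.card_prod, Fintype.card_fun, Fintype.card_bool, Fintype.card_fin] at h1
    exact_mod_cast h1
  rw [inv_pow, ← div_eq_mul_inv, div_le_iff₀ (by positivity)]
  linarith

lemma c_ge (x y : ℕ → Bool) (j : ℕ) (hj : j < n) (h : ov n x y j) : 2⁻¹ ^ j ≤ c n x y := by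
  classical
  have := single_le_sum (f := fun j => if ov n x y j then (2⁻¹ : ℝ) ^ j else 0)
    (fun _ _ => by split_ifs <;> positivity) (mem_range.2 hj)
  rwa [if_pos h] at this

lemma c_le (x y z : ℕ → Bool) (Q : ℕ → (ℕ → Bool) → Prop) (k : ℕ) (h : ∀ j < n, j ≠ k → ov n x y j → Q j z) :
    c n x y ≤ 2⁻¹ ^ k + al Q n z := by
  classical
  have h1 : ∑ j ∈ range n, (if j = k then (2⁻¹ : ℝ) ^ k else 0) ≤ 2⁻¹ ^ k := by
    rw [sum_ite_eq']
    split_ifs
    exacts [le_rfl, by positivity]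
  refine le_trans ?_ (add_le_add_left h1 _)
  rw [al, ← sum_add_distrib]
  refine sum_le_sum fun j hj => ?_
  have := h j (mem_range.1 hj)
  have h2 : (0 : ℝ) ≤ 2⁻¹ ^ j := by positivity
  have h3 : (0 : ℝ) ≤ 2⁻¹ ^ k := by positivity
  split_ifs <;> simp_all

def Occ {n : ℕ} (A : Fin n → Bool) (ω : ℕ → Bool) (t : ℕ) : Prop := ∀ i : Fin n, ω (t + i) = A i

noncomputable def P {n : ℕ} (B A : Fin n → Bool) : ℝ :=
  (Measure.infinitePi fun _ : ℕ => uniformOn (Set.univ : Set Bool)).real {ω | ∃ t, Occ B ω t ∧ ∀ s ≤ t, ¬ Occ A ω s}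

noncomputable def pn (n : ℕ) : ℝ := (∑ A : Fin n → Bool, ⨆ B : {B // B ≠ A}, P B.1 A) / 2 ^ n

lemma occ_iff (A : Fin n → Bool) (ω : ℕ → Bool) (t : ℕ) : Occ A ω t ↔ Oc n (ext A) ω t :=
  ⟨fun h i hi => by simpa [ext, hi] using h ⟨i, hi⟩, fun h i => by simpa [ext] using h i i.2⟩

lemma cw {A B : Fin n → Bool} (h : B ≠ A) : 0 ≤ P B A ∧ P B A ≤ 1 ∧
    (1 - P B A) * c n (ext A) (ext A) + P B A * c n (ext B) (ext A) =
      (1 - P B A) * c n (ext A) (ext B) + P B A * c n (ext B) (ext B) := by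
  obtain ⟨p, h1, h2, h3, h4⟩ := conway (n := n) (a := ext A) (b := ext B) fun h2 =>
    h (ext_inj fun i hi => by simpa using (h2 i (by omega)).symm)
  simp only [P, occ_iff, h3]
  exact ⟨h1, h2, h4⟩

def Q1 (n j : ℕ) (x : ℕ → Bool) : Prop := 1 ≤ j ∧ ov n x x j
def Q2 (n j : ℕ) (x : ℕ → Bool) : Prop := 2 ≤ j ∧ ∀ i, j + i < n → x (j - 1 + i) = x i
def Q3 (n j : ℕ) (x : ℕ → Bool) : Prop := ∀ i, j + i < n → x (j + i) = if i = 0 then true else x (i - 1)
def Q4 (n j : ℕ) (x : ℕ → Bool) : Prop := 1 ≤ j ∧ ∀ i, j + i + 1 < n → x (j + i) = x i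

lemma upper (hn : 2 ≤ n) {A B : Fin n → Bool} (h : B ≠ A) :
    P B A ≤ 2 / 3 + (al (Q1 n) n (ext A) + al (Q2 n) n (ext A)) := by
  classical
  obtain ⟨h1, h2, h3⟩ := cw h
  have h0 : ¬ ov n (ext B) (ext A) 0 := fun h2 => h (ext_inj fun i hi => by simpa using h2 i (by omega))
  have e1 := c_le (n := n) (ext A) (ext A) (ext A) (Q1 n) 0 fun j _ hj h => ⟨by omega, h⟩
  have e2 := c_ge (n := n) (ext B) (ext B) 0 (by omega) fun i _ => by rw [zero_add]
  have e3 := c_nonneg (n := n) (ext A) (ext B)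
  have a1 := al_nonneg (n := n) (Q1 n) (ext A)
  have a2 := al_nonneg (n := n) (Q2 n) (ext A)
  have e4 : c n (ext B) (ext A) ≤ 2⁻¹ ^ 1 + al (Q2 n) n (ext A) := by
    by_cases h4 : ov n (ext B) (ext A) 1
    · refine c_le _ _ _ _ 1 fun j _ hj h5 => ?_
      have h6 : j ≠ 0 := fun e => h0 (e ▸ h5)
      exact ⟨by omega, fun i hi => by rw [← h4 _ (by omega), ← h5 i hi]; congr 1; omega⟩
    · obtain ⟨m, rfl⟩ := Nat.exists_eq_add_of_le' hn
      have h5 := sum_geometric_two_le (m + 2)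
      rw [sum_range_succ', sum_range_succ', one_div] at h5
      rw [c, sum_range_succ', sum_range_succ', zero_add, if_neg h0, if_neg h4]
      have h6 := sum_le_sum (s := range m) (g := fun j => (2⁻¹ : ℝ) ^ (j + 1 + 1))
        (f := fun j => if ov (m + 2) (ext B) (ext A) (j + 1 + 1) then 2⁻¹ ^ (j + 1 + 1) else 0)
        fun j _ => by split_ifs; exacts [le_rfl, by positivity]
      norm_num at h5 h6 ⊢
      linarith
  norm_num at e1 e2 e4
  nlinarith [mul_le_mul_of_nonneg_left e1 (sub_nonneg.2 h2), mul_le_mul_of_nonneg_left e4 h1,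
    mul_le_mul_of_nonneg_left e2 h1, mul_nonneg (sub_nonneg.2 h2) e3, mul_nonneg h1 a1, mul_nonneg (sub_nonneg.2 h2) a2]

lemma lower (hn : 2 ≤ n) (A : Fin n → Bool) :
    2 / 3 - (al (Q3 n) n (ext A) + al (Q4 n) n (ext A)) ≤ ⨆ B : {B // B ≠ A}, P B.1 A := by
  classical
  let B : Fin n → Bool := fun i => if i.val = 0 then true else ext A (i - 1)
  have hB : ∀ i < n, ext B i = if i = 0 then true else ext A (i - 1) := fun i hi => by simp [ext, hi, B]
  have e1 : c n (ext A) (ext B) ≤ al (Q3 n) n (ext A) := sum_le_sum fun j _ => by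
    split_ifs with h1 h2
    exacts [le_rfl, absurd (fun i hi => by rw [h1 i hi, hB i (by omega)]) h2, by positivity, le_rfl]
  have a2 := al_nonneg (n := n) (Q4 n) (ext A)
  by_cases h : B = A
  · have e2 := c_ge (n := n) (ext A) (ext B) 0 (by omega) fun i _ => by rw [zero_add, h]
    have e3 : 0 ≤ ⨆ B : {B // B ≠ A}, P B.1 A := Real.iSup_nonneg fun B => (cw B.2).1
    norm_num at e2
    linarith
  refine le_trans ?_ (le_ciSup (f := fun B : {B // B ≠ A} => P B.1 A) (Set.toFinite _).bddAbove ⟨B, h⟩)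
  obtain ⟨h1, h2, h3⟩ := cw h
  have e2 := c_le (n := n) (ext B) (ext B) (ext A) (Q4 n) 0 fun j _ hj h => ⟨by omega, fun i hi => by
    have := h (i + 1) hi
    rw [← add_assoc, hB _ hi, hB _ (by omega)] at this
    simpa using this⟩
  have e3 := c_ge (n := n) (ext B) (ext A) 1 (by omega) fun i hi => by rw [hB _ hi]; simp
  have e4 := c_ge (n := n) (ext A) (ext A) 0 (by omega) fun i _ => by rw [zero_add]
  have a1 := al_nonneg (n := n) (Q3 n) (ext A)
  norm_num at e2 e3 e4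
  simp only
  nlinarith [mul_le_mul_of_nonneg_left e1 (sub_nonneg.2 h2), mul_le_mul_of_nonneg_left e2 h1,
    mul_le_mul_of_nonneg_left e3 h1, mul_le_mul_of_nonneg_left e4 (sub_nonneg.2 h2), mul_nonneg h1 a1,
    mul_nonneg (sub_nonneg.2 h2) a2]

theorem main : (fun n => pn n - 2 / 3) =O[atTop] fun n : ℕ => (n : ℝ) / 2 ^ n := by
  refine IsBigO.of_bound 4 ?_
  filter_upwards [eventually_ge_atTop 2] with n hn
  have c1 := cnt (n := n) (Q1 n) fun j x y hx hy m h1 h2 h3 => by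
    obtain ⟨i, rfl⟩ := Nat.exists_eq_add_of_le h1
    rw [hx.2 i (by omega), hy.2 i (by omega), h3 i (by have := hx.1; omega)]
  have c2 := cnt (n := n) (Q2 n) fun j x y hx hy m h1 h2 h3 => by
    have := hx.1
    rw [show m = j - 1 + (m - j + 1) by omega, hx.2 _ (by omega), hy.2 _ (by omega), h3 _ (by omega)]
  have c3 := cnt (n := n) (Q3 n) fun j x y hx hy m h1 h2 h3 => by
    obtain ⟨i, rfl⟩ := Nat.exists_eq_add_of_le h1
    rw [hx i (by omega), hy i (by omega)]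
    split_ifs
    exacts [rfl, h3 _ (by omega)]
  have c4 := cnt (n := n) (Q4 n) fun j x y hx hy m h1 h2 h3 => by
    obtain ⟨i, rfl⟩ := Nat.exists_eq_add_of_le h1
    rw [hx.2 i h2, hy.2 i h2, h3 i (by have := hx.1; omega)]
  have u := sum_le_sum fun (A : Fin n → Bool) (_ : A ∈ univ) =>
    Real.iSup_le (f := fun B : {B // B ≠ A} => P B.1 A) (fun B => upper hn B.2)
      (by have := al_nonneg (n := n) (Q1 n) (ext A); have := al_nonneg (n := n) (Q2 n) (ext A); positivity)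
  have l := sum_le_sum fun (A : Fin n → Bool) (_ : A ∈ univ) => lower hn A
  simp only [sum_add_distrib, sum_sub_distrib, sum_const, card_univ, Fintype.card_fun, Fintype.card_bool,
    Fintype.card_fin, nsmul_eq_mul, Nat.cast_pow, Nat.cast_ofNat] at u l
  have h2 : (0 : ℝ) < 2 ^ n := by positivity
  rw [Real.norm_of_nonneg (by positivity : (0 : ℝ) ≤ n / 2 ^ n), Real.norm_eq_abs, pn, div_sub' h2.ne', abs_div,
    abs_of_pos h2, ← mul_div_assoc 4]
  refine div_le_div_of_nonneg_right (abs_le.2 ⟨?_, ?_⟩) h2.le <;> linarith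

end Pool.Agent.H.MP_988dcd_pr
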